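import Mathlib
import Pool.Agent.LibBGS.Defs

/-!
GOE statistics of the spectrum of almost every metric of negative curvature in mesoscopic windows:
the definitions of the final statement.
-/

open MeasureTheory Set Filter Topology BGS
open scoped ContDiff

namespace FG33

/-- The eigenvalue `λ_k` of `√(-Δ)`: `x_k = λ_k² / (4 π)`. -/
noncomputable def lam {Γ : Type} [Group Γ] [MulAction Γ Pl] {D : Set Pl} (m : Mt Γ D) (k : ℕ) :
    ℝ := √(4 * Real.pi * x m k)

/-- `a` is a smooth function with compact support and `a (-t) = conj (a t)`. -/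
structure IsAmp (a : ℝ → ℂ) : Prop where
  smooth : ContDiff ℝ ∞ a
  supp : HasCompactSupport a
  herm : ∀ t, a (-t) = (starRingEnd ℂ) (a t)

/-- The test function `f (y) = ∫ a (t) e ^ {i t y} dt`, a real valued Schwartz function with Fourier
transform `2 π a`. -/
noncomputable def tf (a : ℝ → ℂ) (y : ℝ) : ℝ :=
  (∫ t, a t * Complex.exp (Complex.I * (t * y : ℝ))).re

/-- The linear statistic `∑_k f (ℓ (λ_k - τ))` of the window of length `1 / ℓ` around `τ`, minus the
Weyl term `τ / (2 π ℓ) ∫ f`. -/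
noncomputable def stat {Γ : Type} [Group Γ] [MulAction Γ Pl] {D : Set Pl} (m : Mt Γ D)
    (a : ℝ → ℂ) (l τ : ℝ) : ℝ :=
  ∑' k, tf a (l * (lam m k - τ)) - τ / (2 * Real.pi * l) * ∫ y, tf a y

/-- The limit variance of the linear statistics of the GOE:
`(1 / (2 π²)) ∫ |ξ| |2 π a (ξ)|² dξ`. -/
noncomputable def varGOE (a : ℝ → ℂ) : NNReal :=
  Real.toNNReal (1 / (2 * Real.pi ^ 2) * ∫ ξ, |ξ| * ‖2 * Real.pi * a ξ‖ ^ 2)

/-- The linear statistics of `m` in windows of length `1 / L (T)` around a random `τ`, uniformly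
distributed in `[T, 2 T]`, converge for `T → ∞` in distribution, and with all moments, to the normal
distribution with mean zero and the variance of the GOE. -/
def GOEWindows {Γ : Type} [Group Γ] [MulAction Γ Pl] {D : Set Pl} (m : Mt Γ D) (L : ℝ → ℝ) :
    Prop :=
  ∀ a : ℝ → ℂ, IsAmp a →
    (∀ F : ℝ → ℝ, Continuous F → (∃ B, ∀ y, |F y| ≤ B) →
      Tendsto (fun T : ℝ => (1 / T) * ∫ τ in T..2 * T, F (stat m a (L T) τ)) atTop
        (𝓝 (∫ y, F y ∂(ProbabilityTheory.gaussianReal 0 (varGOE a))))) ∧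
    ∀ r : ℕ, Tendsto (fun T : ℝ => (1 / T) * ∫ τ in T..2 * T, stat m a (L T) τ ^ r) atTop
        (𝓝 (∫ y, y ^ r ∂(ProbabilityTheory.gaussianReal 0 (varGOE a))))

end FG33
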